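import Mathlib

/-!
# Moving averages and difference quotients

`Bx a f` is the average of `f` over `[t - a, t]`, and `Dq a f` is its derivative.
-/

set_option autoImplicit false

open Set Filter Topology MeasureTheory

namespace Pool.Agent.U924.Trk

/-- The average of `f` over the interval `[t - a, t]`. -/
noncomputable def Bx (a : ℝ) (f : ℝ → ℝ) (t : ℝ) : ℝ := (∫ s in (t - a)..t, f s) / a

/-- The backward difference quotient of `f`. -/
noncomputable def Dq (a : ℝ) (f : ℝ → ℝ) (t : ℝ) : ℝ := (f t - f (t - a)) / a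

variable {a M : ℝ} {f g : ℝ → ℝ}

lemma hasDerivAt_Bx (hf : Continuous f) (t : ℝ) : HasDerivAt (Bx a f) (Dq a f t) t := by
  have h1 : ∀ u, HasDerivAt (fun u => ∫ s in (0 : ℝ)..u, f s) (f u) u := fun u =>
    intervalIntegral.integral_hasDerivAt_right (hf.intervalIntegrable _ _)
      (hf.stronglyMeasurableAtFilter _ _) hf.continuousAt
  have h2 : HasDerivAt (fun u => ∫ s in (0 : ℝ)..(u - a), f s) (f (t - a)) t := by
    have := (h1 (t - a)).comp_sub_const t a
    exact this
  have h3 := ((h1 t).sub h2).div_const a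
  refine h3.congr_of_eventuallyEq (Eventually.of_forall fun u => ?_)
  simp only [Bx, Pi.sub_apply]
  congr 1
  rw [eq_sub_iff_add_eq, add_comm]
  exact intervalIntegral.integral_add_adjacent_intervals (hf.intervalIntegrable _ _)
    (hf.intervalIntegrable _ _)

lemma continuous_Bx (hf : Continuous f) : Continuous (Bx a f) :=
  continuous_iff_continuousAt.2 fun t => (hasDerivAt_Bx hf t).continuousAt

lemma abs_Bx_le (ha : 0 < a) (hM : ∀ t, |f t| ≤ M) (t : ℝ) : |Bx a f t| ≤ M := by
  have h := intervalIntegral.norm_integral_le_of_norm_le_const (a := t - a) (b := t) (C := M)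
    (f := f) fun s _ => hM s
  rw [Bx, abs_div, abs_of_pos ha, div_le_iff₀ ha]
  rw [show t - (t - a) = a by ring, abs_of_pos ha] at h
  exact h

lemma abs_Bx_sub_le (ha : 0 < a) (hf : Continuous f) (hg : Continuous g)
    (hM : ∀ t, |f t - g t| ≤ M) (t : ℝ) : |Bx a f t - Bx a g t| ≤ M := by
  have h : Bx a f t - Bx a g t = Bx a (fun s => f s - g s) t := by
    simp only [Bx]
    rw [intervalIntegral.integral_sub (hf.intervalIntegrable _ _) (hg.intervalIntegrable _ _)]
    ring
  rw [h]
  exact abs_Bx_le ha hM t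

lemma abs_Bx_sub_self_le (ha : 0 < a) (hf : Continuous f) {K : ℝ} (hK0 : 0 ≤ K)
    (hK : ∀ s t, |f s - f t| ≤ K * |s - t|) (t : ℝ) : |Bx a f t - f t| ≤ K * a := by
  have h : Bx a f t - f t = (∫ s in (t - a)..t, (f s - f t)) / a := by
    rw [intervalIntegral.integral_sub (hf.intervalIntegrable _ _)
      (continuous_const.intervalIntegrable _ _), intervalIntegral.integral_const, Bx,
      smul_eq_mul, show t - (t - a) = a by ring]
    field_simp
  have h2 := intervalIntegral.norm_integral_le_of_norm_le_const (a := t - a) (b := t)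
    (C := K * a) (f := fun s => f s - f t) (fun s hs => by
      rw [uIoc_of_le (by linarith)] at hs
      refine (hK s t).trans (mul_le_mul_of_nonneg_left ?_ hK0)
      rw [abs_le]
      constructor <;> linarith [hs.1, hs.2])
  rw [show t - (t - a) = a by ring, abs_of_pos ha] at h2
  rw [h, abs_div, abs_of_pos ha, div_le_iff₀ ha]
  exact h2

lemma Bx_eq_zero (ha : 0 ≤ a) (hf : ∀ t ≤ 0, f t = 0) {t : ℝ} (ht : t ≤ 0) : Bx a f t = 0 := by
  have h : ∫ s in (t - a)..t, f s = ∫ s in (t - a)..t, (0 : ℝ) := by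
    refine intervalIntegral.integral_congr fun s hs => ?_
    rw [uIcc_of_le (by linarith)] at hs
    exact hf s (hs.2.trans ht)
  rw [Bx, h, intervalIntegral.integral_zero, zero_div]

/-- The iterated difference quotients with the steps `a 0, …, a (i - 1)`. -/
noncomputable def Dl (a : ℕ → ℝ) : ℕ → (ℝ → ℝ) → ℝ → ℝ
  | 0, f => f
  | i + 1, f => Dl a i (Dq (a i) f)

lemma hasDerivAt_Dl (a : ℕ → ℝ) (i : ℕ) : ∀ {f g : ℝ → ℝ}, (∀ t, HasDerivAt f (g t) t) →
    ∀ t, HasDerivAt (Dl a i f) (Dl a i g t) t := by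
  induction i with
  | zero => exact fun h => h
  | succ i ih =>
    intro f g h
    refine ih fun t => ?_
    exact ((h t).sub ((h (t - a i)).comp_sub_const t (a i))).div_const (a i)

lemma abs_Dl_le {a : ℕ → ℝ} (ha : ∀ i, 0 < a i) (i : ℕ) : ∀ {f : ℝ → ℝ} {M : ℝ},
    (∀ t, |f t| ≤ M) → ∀ t, |Dl a i f t| ≤ M * ∏ j ∈ Finset.range i, (2 / a j) := by
  induction i with
  | zero => intro f M h t; simpa [Dl] using h t
  | succ i ih =>
    intro f M h t
    have h1 : ∀ t, |Dq (a i) f t| ≤ 2 * M / a i := by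
      intro t
      rw [Dq, abs_div, abs_of_pos (ha i)]
      have := (abs_sub (f t) (f (t - a i))).trans (add_le_add (h t) (h (t - a i)))
      exact div_le_div_of_nonneg_right (by linarith) (ha i).le
    refine (ih h1 t).trans (le_of_eq ?_)
    rw [Finset.prod_range_succ]
    ring

lemma Dl_eq_zero {a : ℕ → ℝ} (ha : ∀ i, 0 < a i) (i : ℕ) : ∀ {f : ℝ → ℝ},
    (∀ t ≤ 0, f t = 0) → ∀ t ≤ 0, Dl a i f t = 0 := by
  induction i with
  | zero => exact fun h => h
  | succ i ih =>
    intro f h
    refine ih fun t ht => ?_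
    rw [Dq, h t ht, h (t - a i) (by linarith [ha i])]
    simp

end Pool.Agent.U924.Trk
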