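import Mathlib

/-!
# The steps `16 L² / (j + n + 1)²`
-/

set_option autoImplicit false

open Set Filter Topology
open scoped Nat

namespace Pool.Agent.U924.Trk

/-- The steps. -/
noncomputable def st (L : ℝ) (n : ℕ) (j : ℕ) : ℝ := 16 * L ^ 2 / ((j : ℝ) + n + 1) ^ 2

lemma st_pos {L : ℝ} (hL : 0 < L) (n j : ℕ) : 0 < st L n j := by
  unfold st
  positivity

lemma prod_st {L : ℝ} (hL : 0 < L) (n i : ℕ) :
    ∏ j ∈ Finset.range i, (2 / st L n j) =
      ((i ! * (n + i).choose i : ℕ) : ℝ) ^ 2 / (8 * L ^ 2) ^ i := by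
  rw [← Nat.ascFactorial_eq_factorial_mul_choose, Nat.ascFactorial_eq_prod_range, Nat.cast_prod,
    ← Finset.prod_pow]
  have h : ∀ j ∈ Finset.range i, 2 / st L n j = (((n + 1 + j : ℕ) : ℝ)) ^ 2 / (8 * L ^ 2) := by
    intro j _
    unfold st
    push_cast
    field_simp
    ring
  rw [Finset.prod_congr rfl h, Finset.prod_div_distrib, Finset.prod_const, Finset.card_range]

lemma est {L : ℝ} (hL : 0 < L) (n i : ℕ) :
    L ^ (2 * i) / ((2 * i)! : ℝ) * ∏ j ∈ Finset.range i, (2 / st L n j) ≤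
      4 ^ n * (1 / 2 : ℝ) ^ i := by
  rw [prod_st hL]
  have h1 : (((i ! * (n + i).choose i : ℕ) : ℝ)) ^ 2 ≤ ((2 * i)! : ℝ) * 4 ^ (n + i) := by
    have h2 : (n + i).choose i ≤ 2 ^ (n + i) := Nat.choose_le_two_pow _ _
    have h3 : i ! * i ! ≤ (2 * i)! := by
      rw [two_mul]
      exact Nat.le_of_dvd (Nat.factorial_pos _) (Nat.factorial_mul_factorial_dvd_factorial_add i i)
    have h4 : (i ! * (n + i).choose i) ^ 2 ≤ (2 * i)! * 4 ^ (n + i) := by
      calc (i ! * (n + i).choose i) ^ 2 = (i ! * i !) * ((n + i).choose i) ^ 2 := by ring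
        _ ≤ (2 * i)! * (2 ^ (n + i)) ^ 2 :=
          Nat.mul_le_mul h3 (Nat.pow_le_pow_left h2 2)
        _ = (2 * i)! * 4 ^ (n + i) := by
          rw [← pow_mul, mul_comm (n + i) 2, pow_mul]
          norm_num
    exact_mod_cast h4
  have h5 : (0 : ℝ) < ((2 * i)! : ℝ) := by exact_mod_cast Nat.factorial_pos _
  have h6 : (0 : ℝ) < L ^ (2 * i) := by positivity
  have h7 : (8 * L ^ 2) ^ i = 8 ^ i * L ^ (2 * i) := by rw [mul_pow, ← pow_mul]
  rw [h7, div_mul_div_comm, div_le_iff₀ (by positivity)]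
  have h8 : (4 : ℝ) ^ n * (1 / 2) ^ i * (((2 * i)! : ℝ) * (8 ^ i * L ^ (2 * i))) =
      L ^ (2 * i) * (((2 * i)! : ℝ) * 4 ^ (n + i)) := by
    have : (8 : ℝ) ^ i = 2 ^ i * 4 ^ i := by rw [← mul_pow]; norm_num
    rw [this, pow_add, one_div, inv_pow]
    field_simp
  rw [h8]
  exact mul_le_mul_of_nonneg_left h1 h6.le

/-- The sum of the steps is at most `16 L² / n`. -/
lemma sum_st {L : ℝ} (n : ℕ) (hn : 0 < n) :
    Summable (st L n) ∧ ∑' j, st L n j ≤ 16 * L ^ 2 / n := by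
  have h0 : ∀ j, 0 ≤ st L n j := fun j => by unfold st; positivity
  have hn' : (0 : ℝ) < n := by exact_mod_cast hn
  have h1 : ∀ m, ∑ j ∈ Finset.range m, st L n j ≤ 16 * L ^ 2 / n - 16 * L ^ 2 / ((n : ℝ) + m) := by
    intro m
    induction m with
    | zero => simp
    | succ m ih =>
      rw [Finset.sum_range_succ]
      have h2 : st L n m ≤ 16 * L ^ 2 / ((n : ℝ) + m) - 16 * L ^ 2 / ((n : ℝ) + (m + 1 : ℕ)) := by
        unfold st
        push_cast
        have hm : (0 : ℝ) ≤ m := Nat.cast_nonneg m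
        rw [div_sub_div _ _ (by positivity) (by positivity), div_le_div_iff₀ (by positivity)
          (by positivity)]
        have h3 : 16 * L ^ 2 * ((n : ℝ) + (m + 1)) - ((n : ℝ) + m) * (16 * L ^ 2) =
          16 * L ^ 2 := by ring
        rw [h3]
        have h4 : 0 ≤ 16 * L ^ 2 := by positivity
        refine mul_le_mul_of_nonneg_left ?_ h4
        nlinarith
      linarith
  have h2 : ∀ m, ∑ j ∈ Finset.range m, st L n j ≤ 16 * L ^ 2 / n := by
    intro m
    have : 0 ≤ 16 * L ^ 2 / ((n : ℝ) + m) := by positivity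
    linarith [h1 m]
  exact ⟨summable_of_sum_range_le h0 h2, Real.tsum_le_of_sum_range_le h0 h2⟩

end Pool.Agent.U924.Trk
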