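import Pool.Agent.U924.Trk.Box

/-!
# The infinite composition of moving averages

For a bounded Lipschitz function `w` on `ℝ` which vanishes for `t ≤ 0`, and positive numbers `a i` with
finite sum, `W i` is the limit of `B (a i) B (a (i + 1)) ⋯ B (a (i + n)) w`. It is smooth, its
derivatives are iterated difference quotients of the functions `W j`.
-/

set_option autoImplicit false

open Set Filter Topology MeasureTheory

namespace Pool.Agent.U924.Trk

/-- The data: positive steps with finite sum, a bounded Lipschitz function which vanishes for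
`t ≤ 0`. -/
structure Dat (a : ℕ → ℝ) (w : ℝ → ℝ) (K M : ℝ) : Prop where
  pos : ∀ i, 0 < a i
  sum : Summable a
  K0 : 0 ≤ K
  lip : ∀ s t, |w s - w t| ≤ K * |s - t|
  bdd : ∀ t, |w t| ≤ M
  zero : ∀ t ≤ 0, w t = 0

/-- `n` moving averages, with the steps `a i, …, a (i + n - 1)`. -/
noncomputable def Gn (a : ℕ → ℝ) (w : ℝ → ℝ) : ℕ → ℕ → ℝ → ℝ
  | 0, _ => w
  | n + 1, i => Bx (a i) (Gn a w n (i + 1))

/-- The limit of the functions `Gn a w n i`, `n → ∞`. -/
noncomputable def Wi (a : ℕ → ℝ) (w : ℝ → ℝ) (i : ℕ) (t : ℝ) : ℝ :=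
  w t + ∑' n, (Gn a w (n + 1) i t - Gn a w n i t)

variable {a : ℕ → ℝ} {w : ℝ → ℝ} {K M : ℝ}

lemma Dat.cont (h : Dat a w K M) : Continuous w := by
  have h1 : LipschitzWith K.toNNReal w := by
    refine LipschitzWith.of_dist_le_mul fun s t => ?_
    rw [Real.dist_eq, Real.dist_eq, Real.coe_toNNReal _ h.K0]
    exact h.lip s t
  exact h1.continuous

lemma Dat.G_cont (h : Dat a w K M) (n : ℕ) : ∀ i, Continuous (Gn a w n i) := by
  induction n with
  | zero => exact fun _ => h.cont
  | succ n ih => exact fun i => continuous_Bx (ih (i + 1))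

lemma Dat.G_bdd (h : Dat a w K M) (n : ℕ) : ∀ i t, |Gn a w n i t| ≤ M := by
  induction n with
  | zero => exact fun _ => h.bdd
  | succ n ih => exact fun i => abs_Bx_le (h.pos i) (ih (i + 1))

lemma Dat.G_zero (h : Dat a w K M) (n : ℕ) : ∀ i, ∀ t ≤ 0, Gn a w n i t = 0 := by
  induction n with
  | zero => exact fun _ => h.zero
  | succ n ih => exact fun i t ht => Bx_eq_zero (h.pos i).le (ih (i + 1)) ht

lemma Dat.G_step (h : Dat a w K M) (n : ℕ) : ∀ i t,
    |Gn a w (n + 1) i t - Gn a w n i t| ≤ K * a (i + n) := by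
  induction n with
  | zero => exact fun i => abs_Bx_sub_self_le (h.pos i) h.cont h.K0 h.lip
  | succ n ih =>
    intro i t
    have h1 := abs_Bx_sub_le (h.pos i) (h.G_cont (n + 1) (i + 1)) (h.G_cont n (i + 1))
      (ih (i + 1)) t
    rwa [show i + 1 + n = i + (n + 1) by ring] at h1

lemma Dat.sum' (h : Dat a w K M) (i : ℕ) : Summable fun n => K * a (i + n) := by
  have := (summable_nat_add_iff i).2 h.sum
  refine (this.congr fun n => ?_).mul_left K
  rw [add_comm]

lemma Dat.summable (h : Dat a w K M) (i : ℕ) (t : ℝ) :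
    Summable fun n => Gn a w (n + 1) i t - Gn a w n i t :=
  Summable.of_norm_bounded (h.sum' i) fun n => h.G_step n i t

lemma Dat.tendsto (h : Dat a w K M) (i : ℕ) (t : ℝ) :
    Tendsto (fun n => Gn a w n i t) atTop (𝓝 (Wi a w i t)) := by
  have h1 := (h.summable i t).hasSum.tendsto_sum_nat
  have h2 : ∀ n, ∑ m ∈ Finset.range n, (Gn a w (m + 1) i t - Gn a w m i t) =
      Gn a w n i t - w t := fun n => Finset.sum_range_sub (fun m => Gn a w m i t) n
  simp only [h2] at h1
  have h3 := h1.const_add (w t)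
  refine h3.congr fun n => ?_
  ring

lemma Dat.W_bdd (h : Dat a w K M) (i : ℕ) (t : ℝ) : |Wi a w i t| ≤ M :=
  le_of_tendsto (h.tendsto i t).abs (Eventually.of_forall fun n => h.G_bdd n i t)

lemma Dat.W_zero (h : Dat a w K M) (i : ℕ) (t : ℝ) (ht : t ≤ 0) : Wi a w i t = 0 := by
  refine tendsto_nhds_unique (h.tendsto i t) ?_
  simp only [h.G_zero _ i t ht]
  exact tendsto_const_nhds

lemma Dat.W_near (h : Dat a w K M) (i : ℕ) (t : ℝ) :
    |Wi a w i t - w t| ≤ K * ∑' n, a (i + n) := by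
  rw [Wi, add_sub_cancel_left, ← tsum_mul_left]
  exact tsum_of_norm_bounded (f := fun n => Gn a w (n + 1) i t - Gn a w n i t) (h.sum' i).hasSum
    fun n => h.G_step n i t

lemma Dat.W_cont (h : Dat a w K M) (i : ℕ) : Continuous (Wi a w i) :=
  h.cont.add (continuous_tsum (fun _ => (h.G_cont _ _).sub (h.G_cont _ _)) (h.sum' i)
    fun n t => h.G_step n i t)

lemma Dat.W_eq (h : Dat a w K M) (i : ℕ) : Wi a w i = Bx (a i) (Wi a w (i + 1)) := by
  funext t
  refine tendsto_nhds_unique ((tendsto_add_atTop_iff_nat 1).2 (h.tendsto i t)) ?_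
  change Tendsto (fun n => (∫ s in (t - a i)..t, Gn a w n (i + 1) s) / a i) atTop
    (𝓝 ((∫ s in (t - a i)..t, Wi a w (i + 1) s) / a i))
  refine Tendsto.div_const ?_ _
  refine intervalIntegral.tendsto_integral_filter_of_dominated_convergence (fun _ => M) ?_ ?_ ?_ ?_
  · exact Eventually.of_forall fun n => (h.G_cont n (i + 1)).aestronglyMeasurable
  · exact Eventually.of_forall fun m => Eventually.of_forall fun s _ => h.G_bdd m (i + 1) s
  · exact intervalIntegrable_const
  · exact Eventually.of_forall fun s _ => h.tendsto (i + 1) s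

/-- The `i`-th derivative of `Wi a w 0`. -/
noncomputable def Di (a : ℕ → ℝ) (w : ℝ → ℝ) (i : ℕ) (t : ℝ) : ℝ := Dl a i (Wi a w i) t

lemma Dat.D_deriv (h : Dat a w K M) (i : ℕ) (t : ℝ) :
    HasDerivAt (Di a w i) (Di a w (i + 1) t) t := by
  have h1 : ∀ t, HasDerivAt (Wi a w i) (Dq (a i) (Wi a w (i + 1)) t) t := by
    intro t
    rw [h.W_eq i]
    exact hasDerivAt_Bx (h.W_cont (i + 1)) t
  exact hasDerivAt_Dl a i h1 t

lemma Dat.D_cont (h : Dat a w K M) (i : ℕ) : Continuous (Di a w i) :=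
  continuous_iff_continuousAt.2 fun t => (h.D_deriv i t).continuousAt

lemma Dat.D_bdd (h : Dat a w K M) (i : ℕ) (t : ℝ) :
    |Di a w i t| ≤ M * ∏ j ∈ Finset.range i, (2 / a j) :=
  abs_Dl_le h.pos i (h.W_bdd i) t

lemma Dat.D_zero (h : Dat a w K M) (i : ℕ) (t : ℝ) (ht : t ≤ 0) : Di a w i t = 0 :=
  Dl_eq_zero h.pos i (h.W_zero i) t ht

end Pool.Agent.U924.Trk
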