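import Pool.Agent.R190.Trk.Defs
import Pool.Agent.U924.Trk.Lim
import Pool.Agent.U924.Trk.Est

/-!
# The solution of the heat equation with the flux `Wi a w 0` at `x = 0`
-/

set_option autoImplicit false

open Set Filter Topology
open scoped Nat
open Pool.Agent.R190.Trk

namespace Pool.Agent.U924.Trk

variable {L : ℝ} {n : ℕ} {w : ℝ → ℝ} {K M : ℝ}

/-- The bound of the terms of the series. -/
noncomputable def Ub (M : ℝ) (n i : ℕ) : ℝ := M * 4 ^ n * (1 / 2 : ℝ) ^ i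

/-- The solution: `∑ x^(2 i + 1) / (2 i + 1)! q^(i)(t)`, `q = Wi a w 0`. -/
noncomputable def yS (L : ℝ) (n : ℕ) (w : ℝ → ℝ) (t x : ℝ) : ℝ :=
  ∑' i, Di (st L n) w i t * (x ^ (2 * i + 1) / ((2 * i + 1)! : ℝ))

lemma Ub_nonneg (hM : 0 ≤ M) (n i : ℕ) : 0 ≤ Ub M n i := by unfold Ub; positivity

lemma summable_Ub (M : ℝ) (n : ℕ) : Summable (Ub M n) :=
  (summable_geometric_of_lt_one (by norm_num) (by norm_num)).mul_left _

lemma tsum_Ub (M : ℝ) (n : ℕ) : ∑' i, Ub M n i = 2 * M * 4 ^ n := by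
  unfold Ub
  rw [tsum_mul_left, tsum_geometric_of_lt_one (by norm_num) (by norm_num)]
  ring

lemma Dat.M0 {a : ℕ → ℝ} (h : Dat a w K M) : 0 ≤ M := (abs_nonneg _).trans (h.bdd 0)

lemma boundA (hL : 0 < L) (h : Dat (st L n) w K M) (i : ℕ) (t : ℝ) :
    |Di (st L n) w i t| * (L ^ (2 * i) / ((2 * i)! : ℝ)) ≤ Ub M n i := by
  have h1 : 0 ≤ L ^ (2 * i) / ((2 * i)! : ℝ) := by positivity
  calc |Di (st L n) w i t| * (L ^ (2 * i) / ((2 * i)! : ℝ))
      ≤ (M * ∏ j ∈ Finset.range i, (2 / st L n j)) * (L ^ (2 * i) / ((2 * i)! : ℝ)) :=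
        mul_le_mul_of_nonneg_right (h.D_bdd i t) h1
    _ = M * (L ^ (2 * i) / ((2 * i)! : ℝ) * ∏ j ∈ Finset.range i, (2 / st L n j)) := by ring
    _ ≤ M * (4 ^ n * (1 / 2 : ℝ) ^ i) := mul_le_mul_of_nonneg_left (est hL n i) h.M0
    _ = Ub M n i := by rw [Ub]; ring

lemma boundB (hL : 0 < L) (h : Dat (st L n) w K M) (i : ℕ) (t x : ℝ) (hx : |x| ≤ L) :
    ‖Di (st L n) w i t * (x ^ (2 * i) / ((2 * i)! : ℝ))‖ ≤ Ub M n i := by
  rw [norm_mul, Real.norm_eq_abs, Real.norm_eq_abs, abs_div, abs_pow, Nat.abs_cast]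
  refine le_trans (mul_le_mul_of_nonneg_left ?_ (abs_nonneg _)) (boundA hL h i t)
  gcongr

lemma boundC (hL : 0 < L) (h : Dat (st L n) w K M) (i : ℕ) (t x : ℝ) (hx : |x| ≤ L) :
    ‖Di (st L n) w i t * (x ^ (2 * i + 1) / ((2 * i + 1)! : ℝ))‖ ≤ L * Ub M n i := by
  rw [norm_mul, Real.norm_eq_abs, Real.norm_eq_abs, abs_div, abs_pow, Nat.abs_cast]
  have h1 : |x| ^ (2 * i + 1) / ((2 * i + 1)! : ℝ) ≤ L * (L ^ (2 * i) / ((2 * i)! : ℝ)) := by
    have h2 : ((2 * i)! : ℝ) ≤ ((2 * i + 1)! : ℝ) := by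
      exact_mod_cast Nat.factorial_le (Nat.le_succ _)
    calc |x| ^ (2 * i + 1) / ((2 * i + 1)! : ℝ) ≤ L ^ (2 * i + 1) / ((2 * i)! : ℝ) := by
          gcongr
      _ = L * (L ^ (2 * i) / ((2 * i)! : ℝ)) := by rw [pow_succ]; ring
  calc |Di (st L n) w i t| * (|x| ^ (2 * i + 1) / ((2 * i + 1)! : ℝ))
      ≤ |Di (st L n) w i t| * (L * (L ^ (2 * i) / ((2 * i)! : ℝ))) :=
        mul_le_mul_of_nonneg_left h1 (abs_nonneg _)
    _ = L * (|Di (st L n) w i t| * (L ^ (2 * i) / ((2 * i)! : ℝ))) := by ring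
    _ ≤ L * Ub M n i := mul_le_mul_of_nonneg_left (boundA hL h i t) hL.le

lemma boundD (hL : 0 < L) (h : Dat (st L n) w K M) (i : ℕ) (t x : ℝ) (hx : |x| ≤ L) :
    ‖Di (st L n) w (i + 1) t * (x ^ (2 * i + 1) / ((2 * i + 1)! : ℝ))‖ ≤
      (2 * i + 2) / L * Ub M n (i + 1) := by
  rw [norm_mul, Real.norm_eq_abs, Real.norm_eq_abs, abs_div, abs_pow, Nat.abs_cast]
  have h1 : |x| ^ (2 * i + 1) / ((2 * i + 1)! : ℝ) ≤
      (2 * i + 2) / L * (L ^ (2 * (i + 1)) / ((2 * (i + 1))! : ℝ)) := by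
    have h2 : ((2 * (i + 1))! : ℝ) = (2 * i + 2) * ((2 * i + 1)! : ℝ) := by
      rw [show 2 * (i + 1) = (2 * i + 1) + 1 by ring, Nat.factorial_succ]
      push_cast
      ring
    have h3 : (0 : ℝ) < ((2 * i + 1)! : ℝ) := by exact_mod_cast Nat.factorial_pos _
    calc |x| ^ (2 * i + 1) / ((2 * i + 1)! : ℝ) ≤ L ^ (2 * i + 1) / ((2 * i + 1)! : ℝ) := by
          gcongr
      _ = (2 * i + 2) / L * (L ^ (2 * (i + 1)) / ((2 * (i + 1))! : ℝ)) := by
          rw [h2, show 2 * (i + 1) = (2 * i + 1) + 1 by ring, pow_succ L (2 * i + 1)]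
          field_simp
  calc |Di (st L n) w (i + 1) t| * (|x| ^ (2 * i + 1) / ((2 * i + 1)! : ℝ))
      ≤ |Di (st L n) w (i + 1) t| *
          ((2 * i + 2) / L * (L ^ (2 * (i + 1)) / ((2 * (i + 1))! : ℝ))) :=
        mul_le_mul_of_nonneg_left h1 (abs_nonneg _)
    _ = (2 * i + 2) / L * (|Di (st L n) w (i + 1) t| *
          (L ^ (2 * (i + 1)) / ((2 * (i + 1))! : ℝ))) := by ring
    _ ≤ (2 * i + 2) / L * Ub M n (i + 1) :=
        mul_le_mul_of_nonneg_left (boundA hL h (i + 1) t) (by positivity)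

lemma summable_D (L M : ℝ) (n : ℕ) : Summable fun i : ℕ => (2 * (i : ℝ) + 2) / L * Ub M n (i + 1) := by
  have h1 : Summable fun i : ℕ => ((i : ℝ) ^ 1 * (1 / 2 : ℝ) ^ i) :=
    summable_pow_mul_geometric_of_norm_lt_one 1 (by norm_num)
  have h2 : Summable fun i : ℕ => (((i + 1 : ℕ) : ℝ) ^ 1 * (1 / 2 : ℝ) ^ (i + 1)) :=
    (summable_nat_add_iff 1).2 h1
  refine (h2.mul_left (2 / L * (M * 4 ^ n))).congr fun i => ?_
  unfold Ub
  push_cast
  ring

lemma sol_x (hL : 0 < L) (h : Dat (st L n) w K M) (t x : ℝ) (hx : x ∈ Ioo (-L) L) :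
    HasDerivAt (yS L n w t) (∑' i, Di (st L n) w i t * (x ^ (2 * i) / ((2 * i)! : ℝ))) x := by
  refine hasDerivAt_tsum_of_isPreconnected
    (g := fun i z => Di (st L n) w i t * (z ^ (2 * i + 1) / ((2 * i + 1)! : ℝ)))
    (g' := fun i z => Di (st L n) w i t * (z ^ (2 * i) / ((2 * i)! : ℝ)))
    (summable_Ub M n) isOpen_Ioo isPreconnected_Ioo
    (y₀ := (0 : ℝ)) (t := Ioo (-L) L) ?_ ?_ ⟨by linarith, hL⟩ ?_ hx
  · intro i z _
    have h1 := ((hasDerivAt_pow (2 * i + 1) z).div_const ((2 * i + 1)! : ℝ)).const_mul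
      (Di (st L n) w i t)
    refine h1.congr_deriv ?_
    have h3 : (0 : ℝ) < ((2 * i)! : ℝ) := by exact_mod_cast Nat.factorial_pos _
    rw [Nat.factorial_succ, Nat.add_sub_cancel]
    push_cast
    field_simp
  · intro i z hz
    exact boundB hL h i t z (abs_le.2 ⟨hz.1.le, hz.2.le⟩)
  · exact Summable.of_norm_bounded ((summable_Ub M n).mul_left L) fun i =>
      boundC hL h i t 0 (by simpa using hL.le)

lemma sol_t (hL : 0 < L) (h : Dat (st L n) w K M) (t x : ℝ) (hx : |x| ≤ L) :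
    HasDerivAt (fun s => yS L n w s x)
      (∑' i, Di (st L n) w (i + 1) t * (x ^ (2 * i + 1) / ((2 * i + 1)! : ℝ))) t := by
  refine hasDerivAt_tsum_of_isPreconnected
    (g := fun i s => Di (st L n) w i s * (x ^ (2 * i + 1) / ((2 * i + 1)! : ℝ)))
    (g' := fun i s => Di (st L n) w (i + 1) s * (x ^ (2 * i + 1) / ((2 * i + 1)! : ℝ)))
    (summable_D L M n) isOpen_univ isPreconnected_univ
    (y₀ := (0 : ℝ)) (t := univ) ?_ ?_ (mem_univ _) ?_ (mem_univ _)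
  · intro i s _
    exact (h.D_deriv i s).mul_const _
  · intro i s _
    exact boundD hL h i s x hx
  · exact Summable.of_norm_bounded ((summable_Ub M n).mul_left L) fun i =>
      boundC hL h i 0 x hx

lemma sol_xx (hL : 0 < L) (h : Dat (st L n) w K M) (t x : ℝ) (hx : x ∈ Ioo (-L) L) :
    HasDerivAt (fun z => ∑' i, Di (st L n) w i t * (z ^ (2 * i) / ((2 * i)! : ℝ)))
      (∑' i, Di (st L n) w (i + 1) t * (x ^ (2 * i + 1) / ((2 * i + 1)! : ℝ))) x := by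
  have h1 : ∀ z ∈ Ioo (-L) L, ∑' i, Di (st L n) w i t * (z ^ (2 * i) / ((2 * i)! : ℝ)) =
      Di (st L n) w 0 t +
        ∑' i, Di (st L n) w (i + 1) t * (z ^ (2 * (i + 1)) / ((2 * (i + 1))! : ℝ)) := by
    intro z hz
    have hs : Summable fun i => Di (st L n) w i t * (z ^ (2 * i) / ((2 * i)! : ℝ)) :=
      Summable.of_norm_bounded (summable_Ub M n) fun i =>
        boundB hL h i t z (abs_le.2 ⟨hz.1.le, hz.2.le⟩)
    rw [hs.tsum_eq_zero_add]
    simp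
  have h2 : HasDerivAt (fun z => Di (st L n) w 0 t +
        ∑' i, Di (st L n) w (i + 1) t * (z ^ (2 * (i + 1)) / ((2 * (i + 1))! : ℝ)))
      (∑' i, Di (st L n) w (i + 1) t * (x ^ (2 * i + 1) / ((2 * i + 1)! : ℝ))) x := by
    refine HasDerivAt.const_add _ ?_
    refine hasDerivAt_tsum_of_isPreconnected
      (g := fun i z => Di (st L n) w (i + 1) t * (z ^ (2 * (i + 1)) / ((2 * (i + 1))! : ℝ)))
      (g' := fun i z => Di (st L n) w (i + 1) t * (z ^ (2 * i + 1) / ((2 * i + 1)! : ℝ)))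
      (summable_D L M n) isOpen_Ioo isPreconnected_Ioo
      (y₀ := (0 : ℝ)) (t := Ioo (-L) L) ?_ ?_ ⟨by linarith, hL⟩ ?_ hx
    · intro i z _
      have h1 := ((hasDerivAt_pow (2 * (i + 1)) z).div_const ((2 * (i + 1))! : ℝ)).const_mul
        (Di (st L n) w (i + 1) t)
      refine h1.congr_deriv ?_
      rw [show 2 * (i + 1) = (2 * i + 1) + 1 by ring, Nat.factorial_succ]
      have h3 : (0 : ℝ) < ((2 * i + 1)! : ℝ) := by exact_mod_cast Nat.factorial_pos _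
      rw [Nat.add_sub_cancel]
      push_cast
      field_simp
    · intro i z hz
      exact boundD hL h i t z (abs_le.2 ⟨hz.1.le, hz.2.le⟩)
    · exact Summable.of_norm_bounded ((summable_nat_add_iff 1).2 (summable_Ub M n)) fun i =>
        boundB hL h (i + 1) t 0 (by simpa using hL.le)
  refine h2.congr_of_eventuallyEq ?_
  filter_upwards [isOpen_Ioo.mem_nhds hx] with z hz
  exact h1 z hz

lemma sol_heat (hL : 0 < L) (h : Dat (st L n) w K M) (t x : ℝ) (hx : x ∈ Ioo (-L) L) :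
    Heat (yS L n w) t x :=
  ⟨_, _, sol_t hL h t x (abs_le.2 ⟨hx.1.le, hx.2.le⟩),
    eventually_of_mem (isOpen_Ioo.mem_nhds hx) fun z hz => sol_x hL h t z hz,
    sol_xx hL h t x hx⟩

lemma sol_bdd (hL : 0 < L) (h : Dat (st L n) w K M) (t x : ℝ) (hx : |x| ≤ L) :
    |yS L n w t x| ≤ 2 * L * M * 4 ^ n := by
  have h1 := tsum_of_norm_bounded (f := fun i =>
    Di (st L n) w i t * (x ^ (2 * i + 1) / ((2 * i + 1)! : ℝ)))
    ((summable_Ub M n).mul_left L).hasSum (fun i => boundC hL h i t x hx)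
  rw [tsum_mul_left, tsum_Ub] at h1
  refine h1.trans (le_of_eq ?_)
  ring

lemma sol_cont (hL : 0 < L) (h : Dat (st L n) w K M) :
    ContinuousOn (fun p : ℝ × ℝ => yS L n w p.1 p.2) {p | |p.2| ≤ L} := by
  refine continuousOn_tsum (u := fun i => L * Ub M n i) (fun i => ?_)
    ((summable_Ub M n).mul_left L) ?_
  · exact (((h.D_cont i).comp continuous_fst).mul
      ((continuous_snd.pow _).div_const _)).continuousOn
  · intro i p hp
    exact boundC hL h i p.1 p.2 hp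

lemma sol_zero (h : Dat (st L n) w K M) (t x : ℝ) (ht : t ≤ 0) : yS L n w t x = 0 := by
  unfold yS
  simp [h.D_zero _ t ht]

lemma sol_left (t : ℝ) : yS L n w t 0 = 0 := by
  unfold yS
  simp

lemma sol_flux (hL : 0 < L) (h : Dat (st L n) w K M) (t : ℝ) :
    HasDerivAt (yS L n w t) (Wi (st L n) w 0 t) 0 := by
  have h1 := sol_x hL h t 0 ⟨by linarith, hL⟩
  have h2 : ∑' i, Di (st L n) w i t * ((0 : ℝ) ^ (2 * i) / ((2 * i)! : ℝ)) =
      Wi (st L n) w 0 t := by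
    rw [tsum_eq_single 0]
    · simp [Di, Dl]
    · intro i hi
      rw [zero_pow (by omega)]
      simp
  rwa [h2] at h1

/-- The control `t ↦ yS L n w t L` has the flux `Wi (st L n) w 0` at `x = 0`, and its norm is at
most `2 L M 4^n`. -/
theorem achieves (hL : 0 < L) {T : ℝ} (hT : 0 < T) (h : Dat (st L n) w K M) (hn : 0 < n) {ε : ℝ}
    (hε : K * (16 * L ^ 2 / n) ≤ ε) {w' : ℝ → ℝ} (hw : ∀ t ∈ Icc 0 T, w' t = w t) :
    Achieves L T w' ε (fun t => yS L n w t L) ∧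
      nrm T (fun t => yS L n w t L) ≤ 2 * L * M * 4 ^ n := by
  have hLL : |L| ≤ L := (abs_of_pos hL).le
  have hc : ContinuousOn (fun p : ℝ × ℝ => yS L n w p.1 p.2) (Icc 0 T ×ˢ Icc 0 L) := by
    refine (sol_cont hL h).mono fun p hp => ?_
    change |p.2| ≤ L
    rw [abs_of_nonneg hp.2.1]
    exact hp.2.2
  refine ⟨⟨?_, yS L n w, Wi (st L n) w 0, ?_, (h.W_cont 0).continuousOn, ?_, ?_⟩, ?_⟩
  · have h1 : ContinuousOn (fun t : ℝ => ((t, L) : ℝ × ℝ)) (Icc 0 T) := by fun_prop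
    exact hc.comp h1 fun t ht => ⟨ht, ⟨hL.le, le_rfl⟩⟩
  · exact
      { bdd := ⟨2 * L * M * 4 ^ n, fun t _ x hx => sol_bdd hL h t x (by
          rw [abs_of_nonneg hx.1]; exact hx.2)⟩
        cont := hc.mono sdiff_subset
        heat := fun t _ x hx => sol_heat hL h t x ⟨by linarith [hx.1], hx.2⟩
        init := fun x _ => sol_zero h 0 x le_rfl
        left := fun t _ => sol_left t
        right := fun t _ => rfl }
  · exact fun t _ => (sol_flux hL h t).hasDerivWithinAt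
  · intro t ht
    rw [hw t ht]
    refine (h.W_near 0 t).trans (le_trans (mul_le_mul_of_nonneg_left ?_ h.K0) hε)
    have h1 := (sum_st (L := L) n hn).2
    simpa using h1
  · refine csSup_le ⟨_, ⟨0, ⟨le_rfl, hT.le⟩, rfl⟩⟩ ?_
    rintro _ ⟨t, _, rfl⟩
    exact sol_bdd hL h t L hLL

end Pool.Agent.U924.Trk
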